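import Mathlib

open MeasureTheory Set Filter Topology ProbabilityTheory
open scoped ENNReal

namespace Pool.Agent.Results.MP_ec0ea5_pr.Unique

/-- Equation for the distribution functions in logarithmic coordinates. -/
def Cd (w : ℝ) (m n : Measure ℝ) : Prop :=
  ∀ y, cdf m y = ∫ a, Real.exp (w * min (y - a) 0) ∂n

section One
variable {w : ℝ} {m n : Measure ℝ} [IsProbabilityMeasure m] [IsProbabilityMeasure n] [NullSingletonClass n]

omit [NullSingletonClass n] in
theorem int1 (hw : 0 < w) (y : ℝ) : Integrable (fun a => Real.exp (w * min (y - a) 0)) n :=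
  Integrable.of_bound (by fun_prop) 1 (ae_of_all _ fun a => by
    rw [Real.norm_eq_abs, abs_of_pos (Real.exp_pos _), Real.exp_le_one_iff]
    exact mul_nonpos_of_nonneg_of_nonpos hw.le (min_le_right _ _))

omit [NullSingletonClass n] [IsProbabilityMeasure m] in
theorem dif (hw : 0 < w) (h : Cd w m n) (y : ℝ) :
    cdf m y - cdf n y = ∫ a, (Ioi y).indicator (fun a => Real.exp (w * min (y - a) 0)) a ∂n := by
  rw [h, cdf_eq_real, ← integral_indicator_one measurableSet_Iic,
    ← integral_sub (int1 hw y) (show Integrable ((Iic y).indicator (1 : ℝ → ℝ)) n from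
      (integrable_const 1).indicator measurableSet_Iic)]
  refine integral_congr_ae (ae_of_all _ fun a => ?_)
  by_cases e : a ≤ y
  · simp [indicator, e, not_lt.2 e]
  · simp [indicator, e, not_le.1 e]

omit [IsProbabilityMeasure m] in
theorem der (hw : 0 < w) (h : Cd w m n) (y : ℝ) :
    HasDerivAt (cdf m) (w * (cdf m y - cdf n y)) y := by
  rw [dif hw h, ← integral_const_mul, show (cdf m : ℝ → ℝ) = _ from funext h]
  refine (hasDerivAt_integral_of_dominated_loc_of_lip (bound := fun _ => w) univ_mem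
    (Eventually.of_forall fun x => (int1 hw x).1) (int1 hw y)
    (((int1 hw y).indicator measurableSet_Ioi).const_mul w).1 (ae_of_all _ fun a => ?_)
    (integrable_const _) ?_).2
  · refine LipschitzOnWith.of_dist_le_mul fun x _ z _ => ?_
    have k : ∀ s t : ℝ, s ≤ 0 → t ≤ 0 → |Real.exp s - Real.exp t| ≤ |s - t| := fun s t hs ht => by
      have := Convex.norm_image_sub_le_of_norm_hasDerivWithin_le (f := Real.exp) (C := 1)
        (fun x _ => (Real.hasDerivAt_exp x).hasDerivWithinAt) (fun x (hx : x ∈ Iic 0) => by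
          rw [Real.norm_eq_abs, abs_of_pos (Real.exp_pos _), Real.exp_le_one_iff]; exact hx)
        (convex_Iic 0) ht hs
      simpa using this
    refine (k _ _ (mul_nonpos_of_nonneg_of_nonpos hw.le (min_le_right _ _))
      (mul_nonpos_of_nonneg_of_nonpos hw.le (min_le_right _ _))).trans ?_
    rw [← mul_sub, abs_mul, Real.coe_nnabs, Real.dist_eq]
    refine mul_le_mul_of_nonneg_left ((abs_min_sub_min_le_max _ _ _ _).trans ?_) (abs_nonneg _)
    simp
  · filter_upwards [(countable_singleton y).ae_notMem n] with a ha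
    rcases lt_or_gt_of_ne (show a ≠ y from ha) with e | e
    · rw [indicator_of_notMem (by simpa using e.le), mul_zero]
      refine (hasDerivAt_const y (1 : ℝ)).congr_of_eventuallyEq ?_
      filter_upwards [lt_mem_nhds e] with x hx
      simp [min_eq_right (sub_pos.2 hx).le]
    · rw [indicator_of_mem (by simpa using e), min_eq_left (sub_neg.2 e).le]
      have := (((hasDerivAt_id y).sub_const a).const_mul w).exp
      simp only [id, mul_one] at this
      rw [mul_comm]
      refine this.congr_of_eventuallyEq ?_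
      filter_upwards [gt_mem_nhds e] with x hx
      simp [min_eq_left (sub_neg.2 hx).le]

theorem dens (hw : 0 < w) (h : Cd w m n) :
    Integrable (fun y => w * (cdf m y - cdf n y)) ∧
      ∀ s, MeasurableSet s → m.real s = ∫ y in s, w * (cdf m y - cdf n y) := by
  have nn : ∀ y, 0 ≤ w * (cdf m y - cdf n y) := fun y => by
    rw [dif hw h]
    exact mul_nonneg hw.le (integral_nonneg fun a => indicator_nonneg
      (fun _ _ => (Real.exp_pos _).le) a)
  have me : Measurable fun y => w * (cdf m y - cdf n y) :=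
    ((monotone_cdf m).measurable.sub (monotone_cdf n).measurable).const_mul w
  have e : m = volume.withDensity fun y => ENNReal.ofReal (w * (cdf m y - cdf n y)) := by
    refine Measure.ext_of_Ioc _ _ fun a b hab => ?_
    have i : IntervalIntegrable (fun y => w * (cdf m y - cdf n y)) volume a b :=
      ((monotone_cdf m).intervalIntegrable.sub (monotone_cdf n).intervalIntegrable).const_mul w
    rw [withDensity_apply _ measurableSet_Ioc, ← ofReal_integral_eq_lintegral_ofReal i.1
      (ae_of_all _ nn), ← intervalIntegral.integral_of_le hab.le,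
      intervalIntegral.integral_eq_sub_of_hasDerivAt (fun y _ => der hw h y) i,
      ← StieltjesFunction.measure_Ioc, measure_cdf]
  have i : Integrable (fun y => w * (cdf m y - cdf n y)) := by
    refine ⟨me.aestronglyMeasurable, (hasFiniteIntegral_iff_ofReal (ae_of_all _ nn)).2 ?_⟩
    rw [← setLIntegral_univ, ← withDensity_apply _ MeasurableSet.univ, ← e]
    simp
  refine ⟨i, fun s hs => ?_⟩
  rw [integral_eq_lintegral_of_nonneg_ae (ae_of_all _ nn) me.aestronglyMeasurable,
    ← withDensity_apply _ hs, ← e, Measure.real]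

end One

/-- Smooth approximation of the indicator of the positive half-line. -/
noncomputable def hh (j : ℕ) (s : ℝ) : ℝ := Real.smoothTransition (j * s)

theorem hh_cd (j : ℕ) : ContDiff ℝ 1 (hh j) :=
  Real.smoothTransition.contDiff.comp (contDiff_const.mul contDiff_id)

theorem lim {α : Measure ℝ} {φ f : ℝ → ℝ} (hφ : Continuous φ) (hf : Integrable f α) :
    Tendsto (fun j => ∫ x, hh j (φ x) * f x ∂α) atTop (𝓝 (∫ x in {x | 0 < φ x}, f x ∂α)) := by
  rw [← integral_indicator (isOpen_lt continuous_const hφ).measurableSet]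
  refine tendsto_integral_of_dominated_convergence (fun x => ‖f x‖) (fun j =>
    ((hh_cd j).continuous.comp hφ).aestronglyMeasurable.mul hf.1) hf.norm
    (fun j => ae_of_all _ fun x => ?_) (ae_of_all _ fun x => ?_)
  · rw [norm_mul, hh, Real.norm_of_nonneg (Real.smoothTransition.nonneg _)]
    exact mul_le_of_le_one_left (norm_nonneg _) (Real.smoothTransition.le_one _)
  · by_cases e : 0 < φ x
    · rw [indicator_of_mem (by exact e)]
      refine tendsto_const_nhds.congr' ?_
      filter_upwards [(tendsto_natCast_atTop_atTop.atTop_mul_const e).eventually_ge_atTop 1]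
        with j hj
      rw [hh, Real.smoothTransition.one_of_one_le hj, one_mul]
    · rw [indicator_of_notMem (by exact e)]
      refine tendsto_const_nhds.congr fun j => ?_
      rw [hh, Real.smoothTransition.zero_of_nonpos
        (mul_nonpos_of_nonneg_of_nonpos (Nat.cast_nonneg j) (not_lt.1 e)), zero_mul]

section Two
variable {φ φ' : ℝ → ℝ}

theorem intg (hd : ∀ y, HasDerivAt φ (φ' y) y) (hi : Integrable φ') (hb : ∀ y, φ y ∈ Icc (-1) 1)
    {g : ℝ → ℝ} (hg : Continuous g) : Integrable fun y => g (φ y) * φ' y := by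
  obtain ⟨C, hC⟩ := isCompact_Icc.exists_bound_of_continuousOn (hg.continuousOn (s := Icc (-1) 1))
  exact hi.bdd_mul (hg.comp (continuous_iff_continuousAt.2 fun y =>
    (hd y).continuousAt)).aestronglyMeasurable (ae_of_all _ fun y => hC _ (hb y))

theorem prim (hd : ∀ y, HasDerivAt φ (φ' y) y) {g : ℝ → ℝ} (hg : Continuous g) (y : ℝ) :
    HasDerivAt (fun y => ∫ s in (0 : ℝ)..φ y, g s) (g (φ y) * φ' y) y :=
  (hg.deriv_integral _ _ _ ▸ (intervalIntegral.differentiable_integral_of_continuous hg
    (φ y)).hasDerivAt).comp y (hd y)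

theorem tz {l : Filter ℝ} (h : Tendsto φ l (𝓝 0)) {g : ℝ → ℝ} (hg : Continuous g) :
    Tendsto (fun y => ∫ s in (0 : ℝ)..φ y, g s) l (𝓝 0) := by
  have := ((intervalIntegral.differentiable_integral_of_continuous hg (a := 0)).continuous.tendsto
    0).comp h
  rw [intervalIntegral.integral_same] at this
  exact this

theorem ftc (hd : ∀ y, HasDerivAt φ (φ' y) y) (hi : Integrable φ') (hb : ∀ y, φ y ∈ Icc (-1) 1)
    (ht : Tendsto φ atTop (𝓝 0)) {g : ℝ → ℝ} (hg : Continuous g) (t : ℝ) :
    ∫ y in Ioi t, g (φ y) * φ' y = -∫ s in (0 : ℝ)..φ t, g s := by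
  rw [integral_Ioi_of_hasDerivAt_of_tendsto' (fun y _ => prim hd hg y)
    (intg hd hi hb hg).integrableOn (tz ht hg), zero_sub]

theorem partB (hd : ∀ y, HasDerivAt φ (φ' y) y) (hi : Integrable φ') (hb : ∀ y, φ y ∈ Icc (-1) 1)
    (ht : Tendsto φ atTop (𝓝 0)) (t : ℝ) :
    ∫ y in {x | 0 < φ x} ∩ Ioi t, φ' y = -max (φ t) 0 := by
  have hc : Continuous φ := continuous_iff_continuousAt.2 fun y => (hd y).continuousAt
  have l := lim (α := volume.restrict (Ioi t)) hc hi.integrableOn
  rw [Measure.restrict_restrict (isOpen_lt continuous_const hc).measurableSet] at l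
  simp only [ftc hd hi hb ht (hh_cd _).continuous] at l
  refine tendsto_nhds_unique l (Tendsto.neg ?_)
  rcases le_total (φ t) 0 with e | e
  · rw [max_eq_right e]
    refine tendsto_const_nhds.congr fun j => ?_
    rw [intervalIntegral.integral_congr (g := fun _ => 0) fun s hs => ?_]
    · simp
    · rw [uIcc_of_ge e] at hs
      exact Real.smoothTransition.zero_of_nonpos
        (mul_nonpos_of_nonneg_of_nonpos (Nat.cast_nonneg j) hs.2)
  · have := lim (α := volume.restrict (Ioc 0 (φ t))) (f := fun _ => 1) continuous_id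
      (integrable_const 1)
    rw [Measure.restrict_restrict (isOpen_lt continuous_const continuous_id).measurableSet,
      inter_eq_right.2 fun x hx => hx.1] at this
    simp only [max_eq_left e, intervalIntegral.integral_of_le e]
    simpa [e] using this

theorem fub (hd : ∀ y, HasDerivAt φ (φ' y) y) (hi : Integrable φ') (hb : ∀ y, φ y ∈ Icc (-1) 1)
    (ht : Tendsto φ atTop (𝓝 0)) (j : ℕ) (n : Measure ℝ) [IsProbabilityMeasure n] [NullSingletonClass n] :
    ∫ a, hh j (φ a) * 1 ∂n = -∫ y, deriv (hh j) (φ y) * φ' y * cdf n y := by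
  have hg := (hh_cd j).continuous_deriv le_rfl
  have u := intg hd hi hb hg
  have e : ∀ a, hh j (φ a) * 1 =
      -∫ y, {p : ℝ × ℝ | p.1 < p.2}.indicator (fun p => deriv (hh j) (φ p.2) * φ' p.2) (a, y) :=
    fun a => by
      have := ftc hd hi hb ht hg a
      rw [intervalIntegral.integral_deriv_eq_sub (fun x _ => (hh_cd j).differentiable one_ne_zero x)
        (hg.intervalIntegrable _ _), ← integral_indicator measurableSet_Ioi] at this
      simp only [hh, mul_zero, Real.smoothTransition.zero, sub_zero] at this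
      rw [mul_one, hh, ← neg_eq_iff_eq_neg, ← this]
      rfl
  simp only [e]
  rw [integral_neg, integral_integral_swap (f := fun a y => {p : ℝ × ℝ | p.1 < p.2}.indicator
    (fun p => deriv (hh j) (φ p.2) * φ' p.2) (a, y)) ((u.comp_snd n).indicator
    (measurableSet_lt measurable_fst measurable_snd))]
  congr 1
  refine integral_congr_ae (ae_of_all _ fun y => ?_)
  have : (fun a => {p : ℝ × ℝ | p.1 < p.2}.indicator
      (fun p => deriv (hh j) (φ p.2) * φ' p.2) (a, y)) =
      (Iio y).indicator fun _ => deriv (hh j) (φ y) * φ' y := rfl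
  simp only [this]
  rw [integral_indicator_const _ measurableSet_Iio, cdf_eq_real, measureReal_congr Iio_ae_eq_Iic,
    smul_eq_mul, mul_comm]

end Two

theorem core {w : ℝ} (hw : 0 < w) {m n m' n' : Measure ℝ} [IsProbabilityMeasure m]
    [IsProbabilityMeasure n] [NullSingletonClass n] [IsProbabilityMeasure m'] [IsProbabilityMeasure n']
    [NullSingletonClass n'] (h : Cd w m n) (h' : Cd w m' n') :
    n'.real {y | 0 < cdf m y - cdf m' y} ≤ n.real {y | 0 < cdf m y - cdf m' y} ∧
    ∀ t, m'.real ({y | 0 < cdf m y - cdf m' y} ∩ Ioi t) =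
      m.real ({y | 0 < cdf m y - cdf m' y} ∩ Ioi t) + max (cdf m t - cdf m' t) 0 := by
  set φ : ℝ → ℝ := fun y => cdf m y - cdf m' y with hφ
  let φ' : ℝ → ℝ := fun y => w * (cdf m y - cdf n y) - w * (cdf m' y - cdf n' y)
  have hd : ∀ y, HasDerivAt φ (φ' y) y := fun y => (der hw h y).sub (der hw h' y)
  have hi : Integrable φ' := (dens hw h).1.sub (dens hw h').1
  have hb : ∀ y, φ y ∈ Icc (-1) 1 := fun y => by
    constructor <;> simp only [hφ] <;>
      linarith [cdf_nonneg m y, cdf_nonneg m' y, cdf_le_one m y, cdf_le_one m' y]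
  have ht : Tendsto φ atTop (𝓝 0) := by
    simpa using (tendsto_cdf_atTop m).sub (tendsto_cdf_atTop m')
  have hs : Tendsto φ atBot (𝓝 0) := by
    simpa using (tendsto_cdf_atBot m).sub (tendsto_cdf_atBot m')
  have hc : Continuous φ := continuous_iff_continuousAt.2 fun y => (hd y).continuousAt
  constructor
  · have l := lim (α := n) hc (integrable_const 1)
    have l' := lim (α := n') hc (integrable_const 1)
    simp only [integral_const, smul_eq_mul, mul_one, measureReal_restrict_apply_univ] at l l'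
    refine le_of_tendsto_of_tendsto' l' l fun j => ?_
    have f := fub hd hi hb ht j n
    have f' := fub hd hi hb ht j n'
    simp only [mul_one] at f f'
    rw [f, f', neg_le_neg_iff]
    have hg := (hh_cd j).continuous_deriv le_rfl
    have u := intg hd hi hb hg
    have hg2 : Continuous fun s => deriv (hh j) s * s := hg.mul continuous_id
    have z := integral_of_hasDerivAt_of_tendsto (prim hd hg2) (intg hd hi hb hg2) (tz hs hg2)
      (tz ht hg2)
    have b : ∀ (k : Measure ℝ) [IsProbabilityMeasure k],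
        Integrable fun y => deriv (hh j) (φ y) * φ' y * cdf k y := fun k _ =>
      u.mul_bdd (monotone_cdf k).measurable.aestronglyMeasurable (c := 1) (ae_of_all _ fun y => by
        rw [Real.norm_of_nonneg (cdf_nonneg k y)]; exact cdf_le_one k y)
    rw [← sub_nonpos, ← integral_sub (b n) (b n'), ← sub_zero 0, ← z]
    refine integral_mono ((b n).sub (b n')) (intg hd hi hb hg2) fun y => ?_
    have p : 0 ≤ deriv (hh j) (φ y) := Monotone.deriv_nonneg fun a c hac =>
      Real.smoothTransition.monotone (mul_le_mul_of_nonneg_left hac (Nat.cast_nonneg j))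
    have e : cdf n y - cdf n' y = φ y - φ' y / w := by simp only [hφ, φ']; field_simp; ring
    have q : 0 ≤ deriv (hh j) (φ y) * (φ' y ^ 2 / w) := by positivity
    simp only
    rw [← mul_sub, e]
    refine le_of_sub_nonneg (q.trans_eq ?_)
    ring
  · intro t
    have ms : MeasurableSet ({y | 0 < φ y} ∩ Ioi t) :=
      (isOpen_lt continuous_const hc).measurableSet.inter measurableSet_Ioi
    have := partB hd hi hb ht t
    rw [integral_sub (dens hw h).1.integrableOn (dens hw h').1.integrableOn,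
      ← (dens hw h).2 _ ms, ← (dens hw h').2 _ ms] at this
    linarith

/-- Exponential moments on a set. -/
noncomputable def Mo (k : ℕ) (m : Measure ℝ) (s : Set ℝ) : ℝ≥0∞ :=
  ∫⁻ y in s, ENNReal.ofReal (Real.exp (k * y)) ∂m

/-- Solutions in logarithmic coordinates. -/
structure LS (w : ℝ) (ψ : ℕ → ℝ≥0∞) (m n : Measure ℝ) : Prop where
  pm : IsProbabilityMeasure m
  pn : IsProbabilityMeasure n
  na : NullSingletonClass n
  cd : Cd w m n
  fi : ∀ k, ψ k ≠ 0 → Mo k m univ ≠ ∞
  bi : ∀ s, MeasurableSet s → n s = ∑' k, ψ k / Mo k m univ * Mo k m s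

theorem Mo_ne (k : ℕ) (m : Measure ℝ) [IsProbabilityMeasure m] : Mo k m univ ≠ 0 := fun h => by
  rw [Mo, setLIntegral_univ, lintegral_eq_zero_iff (by fun_prop)] at h
  obtain ⟨y, hy⟩ := h.exists
  exact (Real.exp_pos _).not_ge (ENNReal.ofReal_eq_zero.1 hy)

theorem layer {k : ℕ} (hk : k ≠ 0) (m : Measure ℝ) {s : Set ℝ} (hs : MeasurableSet s) :
    Mo k m s = ∫⁻ t in Ioi 0, m (s ∩ Ioi (Real.log t / k)) := by
  rw [Mo, lintegral_eq_lintegral_meas_lt _ (ae_of_all _ fun y => (Real.exp_pos _).le)
    (by fun_prop)]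
  refine setLIntegral_congr_fun measurableSet_Ioi fun t ht => ?_
  rw [Measure.restrict_apply' hs, inter_comm]
  congr 2
  ext a
  rw [mem_ofPred_eq, mem_Ioi, div_lt_iff₀' (by positivity), Real.log_lt_iff_lt_exp ht]

theorem frac {c A B A' B' : ℝ≥0∞} (hA : A ≤ A') (hB : B' ≤ B) (h : A + B ≠ ∞) (h' : A' + B' ≠ ∞)
    (h0 : A + B ≠ 0) (h0' : A' + B' ≠ 0) : c / (A + B) * A ≤ c / (A' + B') * A' := by
  rw [div_eq_mul_inv, div_eq_mul_inv, mul_assoc, mul_assoc]
  refine mul_le_mul_right ?_ c
  rw [ENNReal.inv_mul_le_iff h0 h, mul_left_comm, ← ENNReal.div_eq_inv_mul,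
    ENNReal.le_div_iff_mul_le (Or.inl h0') (Or.inl h'), mul_add, add_mul, mul_comm B]
  exact add_le_add le_rfl (mul_le_mul' hA hB)

theorem half {w : ℝ} (hw : 0 < w) {ψ : ℕ → ℝ≥0∞} (h0 : ψ 0 = 0) (h1 : ∑' k, ψ k = 1)
    {m n m' n' : Measure ℝ} (h : LS w ψ m n) (h' : LS w ψ m' n') {k : ℕ} (hk : ψ k ≠ 0)
    (he : Mo k m univ = Mo k m' univ) (y : ℝ) : cdf m y ≤ cdf m' y := by
  have := h.pm; have := h.pn; have := h.na; have := h'.pm; have := h'.pn; have := h'.na
  obtain ⟨c1, c2⟩ := core hw h.cd h'.cd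
  have hc : Continuous fun y => cdf m y - cdf m' y := continuous_iff_continuousAt.2 fun y =>
    ((der hw h.cd y).sub (der hw h'.cd y)).continuousAt
  set O := {y | 0 < cdf m y - cdf m' y}
  have hO : MeasurableSet O := (isOpen_lt continuous_const hc).measurableSet
  have rl : ∀ (a b : Measure ℝ) [IsProbabilityMeasure a] [IsProbabilityMeasure b] (s : Set ℝ),
      a.real s ≤ b.real s → a s ≤ b s := fun a b _ _ s e =>
    (ENNReal.toReal_le_toReal (measure_ne_top _ _) (measure_ne_top _ _)).1 e
  have hA : ∀ t, m (O ∩ Ioi t) ≤ m' (O ∩ Ioi t) := fun t =>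
    rl _ _ _ (by linarith [c2 t, le_max_right (cdf m t - cdf m' t) 0])
  have sp : ∀ (a : Measure ℝ) [IsProbabilityMeasure a] (t : ℝ),
      a.real (O ∩ Ioi t) + a.real (Oᶜ ∩ Ioi t) = 1 - cdf a t := fun a _ t => by
    rw [inter_comm O, inter_comm Oᶜ, ← sdiff_eq, measureReal_inter_add_sdiff hO, cdf_eq_real,
      ← compl_Iic, probReal_compl_eq_one_sub measurableSet_Iic]
  have hB : ∀ t, m' (Oᶜ ∩ Ioi t) ≤ m (Oᶜ ∩ Ioi t) := fun t =>
    rl _ _ _ (by linarith [c2 t, le_max_left (cdf m t - cdf m' t) 0, sp m t, sp m' t])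
  have ad : ∀ (j : ℕ) (a : Measure ℝ), Mo j a univ = Mo j a O + Mo j a Oᶜ := fun j a => by
    rw [Mo, Mo, Mo, setLIntegral_univ, lintegral_add_compl _ hO]
  have k0 : ∀ j, ψ j ≠ 0 → j ≠ 0 := fun j hj e => hj (e ▸ h0)
  have le : Mo k m' O ≤ Mo k m O := by
    by_contra hlt
    refine (rl _ _ _ c1).not_gt ?_
    rw [h.bi _ hO, h'.bi _ hO]
    refine ENNReal.tsum_lt_tsum (i := k) (by rw [← h.bi _ hO]; exact measure_ne_top _ _)
      (fun j => ?_) ?_
    · by_cases hj : ψ j = 0
      · simp [hj]
      · have f1 := h.fi j hj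
        have f2 := h'.fi j hj
        have f3 := Mo_ne j m
        have f4 := Mo_ne j m'
        rw [ad] at f1 f2 f3 f4
        rw [ad j m, ad j m']
        refine frac ?_ ?_ f1 f2 f3 f4
        · rw [layer (k0 j hj) _ hO, layer (k0 j hj) _ hO]
          exact lintegral_mono fun t => hA _
        · rw [layer (k0 j hj) _ hO.compl, layer (k0 j hj) _ hO.compl]
          exact lintegral_mono fun t => hB _
    · rw [← he]
      refine ENNReal.mul_lt_mul_right (ENNReal.div_ne_zero.2 ⟨hk, h.fi k hk⟩)
        (ENNReal.div_ne_top ?_ (Mo_ne k m)) (not_le.1 hlt)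
      exact ne_top_of_le_ne_top ENNReal.one_ne_top (h1 ▸ ENNReal.le_tsum k)
  have fi : Mo k m O ≠ ∞ := ne_top_of_le_ne_top (h.fi k hk) (by rw [ad]; exact le_self_add)
  rw [layer (k0 k hk) _ hO] at fi
  rw [layer (k0 k hk) _ hO, layer (k0 k hk) _ hO] at le
  have an : Antitone fun u => m' (O ∩ Ioi u) := fun a b hab =>
    measure_mono (inter_subset_inter_right _ (Ioi_subset_Ioi hab))
  have ae := ae_eq_of_ae_le_of_lintegral_le (ae_of_all _ fun t => hA _) fi
    (an.measurable.comp (Real.measurable_log.div_const _)).aemeasurable le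
  rw [EventuallyEq, ae_restrict_iff' measurableSet_Ioi, ae_iff] at ae
  by_contra hy
  have kp : (k : ℝ) ≠ 0 := Nat.cast_ne_zero.2 (k0 k hk)
  have ca : ContinuousAt (fun t => cdf m (Real.log t / k) - cdf m' (Real.log t / k))
      (Real.exp (k * y)) :=
    hc.continuousAt.comp ((Real.continuousAt_log (Real.exp_pos _).ne').div_const _)
  have ev := (ca.eventually (lt_mem_nhds (show 0 < _ by
    simp only [Real.log_exp, mul_div_cancel_left₀ y kp]; linarith))).and
    (lt_mem_nhds (Real.exp_pos (k * y)))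
  refine (Measure.measure_pos_of_mem_nhds volume ev).ne' (measure_mono_null ?_ ae)
  rintro t ⟨t1, t2⟩ t3
  have t4 := c2 (Real.log t / k)
  rw [Measure.real, Measure.real, t3 t2] at t4
  linarith [le_max_left (cdf m (Real.log t / k) - cdf m' (Real.log t / k)) 0]

theorem Mo_map (k : ℕ) (m : Measure ℝ) (c : ℝ) {s : Set ℝ} (hs : MeasurableSet s) :
    Mo k (m.map (· + c)) s = ENNReal.ofReal (Real.exp (k * c)) * Mo k m ((· + c) ⁻¹' s) := by
  rw [Mo, Mo, setLIntegral_map hs (by fun_prop) (by fun_prop), ← lintegral_const_mul _ (by fun_prop)]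
  refine lintegral_congr fun y => ?_
  rw [← ENNReal.ofReal_mul (Real.exp_pos _).le, ← Real.exp_add]
  ring_nf

theorem LS.shift {w : ℝ} {ψ : ℕ → ℝ≥0∞} {m n : Measure ℝ} (h : LS w ψ m n) (c : ℝ) :
    LS w ψ (m.map (· + c)) (n.map (· + c)) := by
  have := h.pm; have := h.pn; have := h.na
  have me : Measurable fun x : ℝ => x + c := by fun_prop
  have := Measure.isProbabilityMeasure_map (μ := m) me.aemeasurable
  refine ⟨this, Measure.isProbabilityMeasure_map me.aemeasurable, ⟨fun x => ?_⟩, fun y => ?_,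
    fun k hk => ?_, fun s hs => ?_⟩
  · rw [Measure.map_apply me (measurableSet_singleton x)]
    simp
  · rw [cdf_eq_real, map_measureReal_apply me measurableSet_Iic, preimage_add_const_Iic,
      ← cdf_eq_real, h.cd, integral_map me.aemeasurable (by fun_prop)]
    simp only [sub_sub, add_comm c]
  · rw [Mo_map _ _ _ MeasurableSet.univ]
    exact ENNReal.mul_ne_top ENNReal.ofReal_ne_top (h.fi k hk)
  · rw [Measure.map_apply me hs, h.bi _ (me hs)]
    refine tsum_congr fun k => ?_
    have p : ENNReal.ofReal (Real.exp (k * c)) ≠ 0 := by simp [Real.exp_pos]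
    rw [Mo_map _ _ _ MeasurableSet.univ, Mo_map _ _ _ hs, preimage_univ, div_eq_mul_inv,
      div_eq_mul_inv, ENNReal.mul_inv (Or.inl p) (Or.inl ENNReal.ofReal_ne_top), mul_assoc,
      mul_assoc, mul_mul_mul_comm, ENNReal.inv_mul_cancel p ENNReal.ofReal_ne_top, one_mul]

theorem uniq {w : ℝ} (hw : 0 < w) {ψ : ℕ → ℝ≥0∞} (h0 : ψ 0 = 0) (h1 : ∑' k, ψ k = 1)
    {m n m' n' : Measure ℝ} (h : LS w ψ m n) (h' : LS w ψ m' n') :
    ∃ c, m' = m.map (· + c) := by
  obtain ⟨k, hk⟩ : ∃ k, ψ k ≠ 0 := by
    by_contra e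
    push Not at e
    simp [e] at h1
  have := h.pm; have := h'.pm
  have kp : (k : ℝ) ≠ 0 := Nat.cast_ne_zero.2 fun e => hk (e ▸ h0)
  have p := ENNReal.toReal_pos (Mo_ne k m) (h.fi k hk)
  have p' := ENNReal.toReal_pos (Mo_ne k m') (h'.fi k hk)
  let c := Real.log ((Mo k m' univ).toReal / (Mo k m univ).toReal) / k
  have he : Mo k (m.map (· + c)) univ = Mo k m' univ := by
    rw [Mo_map _ _ _ MeasurableSet.univ, preimage_univ, mul_div_cancel₀ _ kp,
      Real.exp_log (div_pos p' p), ENNReal.ofReal_div_of_pos p, ENNReal.ofReal_toReal (h.fi k hk),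
      ENNReal.ofReal_toReal (h'.fi k hk), ENNReal.div_mul_cancel (Mo_ne k m) (h.fi k hk)]
  have := (h.shift c).pm
  refine ⟨c, Measure.eq_of_cdf _ _ (StieltjesFunction.ext fun y => le_antisymm ?_ ?_)⟩
  · exact half hw h0 h1 h' (h.shift c) hk he.symm y
  · exact half hw h0 h1 (h.shift c) h' hk he y

/-- The `k`-th moment. -/
noncomputable def mom (μ : Measure ℝ) (k : ℕ) : ℝ≥0∞ := ∫⁻ x, ENNReal.ofReal (x ^ k) ∂μ

/-- The `ψ`-power-bias distribution. -/
noncomputable def bias (ψ : ℕ → ℝ≥0∞) (μ : Measure ℝ) : Measure ℝ :=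
  Measure.sum fun k => (ψ k / mom μ k) • μ.withDensity fun x => ENNReal.ofReal (x ^ k)

/-- The Beta(w,1) law. -/
noncomputable def betaLaw (w : ℝ) : Measure ℝ :=
  (volume.restrict (Ioo 0 1)).withDensity fun v => ENNReal.ofReal (w * v ^ (w - 1))

/-- `μ` is the law of a positive random variable solving the fixed point equation. -/
def Sol (w : ℝ) (ψ : ℕ → ℝ≥0∞) (μ : Measure ℝ) : Prop :=
  IsProbabilityMeasure μ ∧ μ (Iic 0) = 0 ∧ (∀ k, ψ k ≠ 0 → mom μ k ≠ ∞) ∧
    μ = ((betaLaw w).prod (bias ψ μ)).map fun p => p.1 * p.2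

theorem beta_eq {w : ℝ} (hw : 0 < w) {a : ℝ} (ha : 0 < a) (y : ℝ) :
    betaLaw w {v | Real.log (v * a) ≤ y} =
      ENNReal.ofReal (Real.exp (w * min (y - Real.log a) 0)) := by
  have ms : MeasurableSet {v | Real.log (v * a) ≤ y} :=
    measurableSet_le (by fun_prop) measurable_const
  have e : {v | Real.log (v * a) ≤ y} ∩ Ioc 0 1 = Ioc 0 (Real.exp (min (y - Real.log a) 0)) := by
    ext v
    simp only [mem_inter_iff, mem_ofPred_eq, mem_Ioc]
    by_cases hv : 0 < v
    · rw [← Real.log_le_iff_le_exp hv, Real.log_mul hv.ne' ha.ne', le_min_iff,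
        Real.log_nonpos_iff hv.le, le_sub_iff_add_le]
      simp [hv]
    · simp [hv]
  have i := (intervalIntegral.intervalIntegrable_rpow' (a := 0)
    (b := Real.exp (min (y - Real.log a) 0)) (show -1 < w - 1 by linarith)).const_mul w
  rw [betaLaw, withDensity_apply _ ms, Measure.restrict_congr_set Ioo_ae_eq_Ioc,
    Measure.restrict_restrict ms, e, ← ofReal_integral_eq_lintegral_ofReal i.1
      ((ae_restrict_mem measurableSet_Ioc).mono fun v hv =>
        mul_nonneg hw.le (Real.rpow_nonneg hv.1.le _)),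
    ← intervalIntegral.integral_of_le (Real.exp_pos _).le, intervalIntegral.integral_const_mul,
    integral_rpow (Or.inl (by linarith)), sub_add_cancel, Real.zero_rpow hw.ne', sub_zero,
    mul_div_cancel₀ _ hw.ne', ← Real.exp_mul, mul_comm]

theorem Sol.pos {w : ℝ} {ψ : ℕ → ℝ≥0∞} {μ : Measure ℝ} (h : Sol w ψ μ) : ∀ᵐ x ∂μ, 0 < x := by
  rw [ae_iff]
  simp only [not_lt]
  exact h.2.1

theorem Sol.ls {w : ℝ} (hw : 0 < w) {ψ : ℕ → ℝ≥0∞} (h1 : ∑' k, ψ k = 1) {μ : Measure ℝ}
    (h : Sol w ψ μ) : LS w ψ (μ.map Real.log) ((bias ψ μ).map Real.log) := by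
  have pos := h.pos
  obtain ⟨hp, hz, hf, he⟩ := h
  have ml := Real.measurable_log
  have pm := Measure.isProbabilityMeasure_map (μ := μ) ml.aemeasurable
  have mo : ∀ (k : ℕ) s, MeasurableSet s → Mo k (μ.map Real.log) s =
      ∫⁻ x in Real.log ⁻¹' s, ENNReal.ofReal (x ^ k) ∂μ := fun k s hs => by
    rw [Mo, setLIntegral_map hs (by fun_prop) ml]
    refine lintegral_congr_ae ((ae_restrict_of_ae pos).mono fun x hx => ?_)
    simp only [Real.exp_nat_mul, Real.exp_log hx]
  have mu : ∀ k : ℕ, Mo k (μ.map Real.log) univ = mom μ k := fun k => by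
    rw [mo k _ MeasurableSet.univ, preimage_univ, setLIntegral_univ, mom]
  have pb : IsProbabilityMeasure (bias ψ μ) := ⟨by
    rw [bias, Measure.sum_apply _ MeasurableSet.univ, ← h1]
    refine tsum_congr fun k => ?_
    rw [Measure.smul_apply, withDensity_apply _ MeasurableSet.univ, setLIntegral_univ, smul_eq_mul]
    by_cases e : ψ k = 0
    · simp [e]
    · exact ENNReal.div_mul_cancel (mu k ▸ Mo_ne k _) (hf k e)⟩
  have ac : bias ψ μ ≪ μ := Measure.AbsolutelyContinuous.mk fun s hs h0 => by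
    rw [bias, Measure.sum_apply _ hs]
    simp [withDensity_absolutelyContinuous μ _ h0]
  have sf : SFinite (betaLaw w) := by unfold betaLaw; infer_instance
  have ge : ∀ s, MeasurableSet s → μ s = ∫⁻ a, betaLaw w {v | v * a ∈ s} ∂bias ψ μ :=
    fun s hs => by
      have m2 : Measurable fun p : ℝ × ℝ => p.1 * p.2 := by fun_prop
      conv_lhs => rw [he]
      rw [Measure.map_apply m2 hs, Measure.prod_apply_symm (m2 hs)]
      rfl
  have ns : ∀ x, μ {x} = 0 := fun x => by
    rw [ge _ (measurableSet_singleton x), lintegral_congr_ae (g := fun _ => 0), lintegral_zero]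
    filter_upwards [ac.ae_le pos] with a ha
    refine withDensity_absolutelyContinuous _ _ (measure_mono_null (t := {x / a})
      (fun v hv => eq_div_of_mul_eq ha.ne' hv) (measure_singleton _))
  refine ⟨pm, Measure.isProbabilityMeasure_map ml.aemeasurable, ⟨fun y => ?_⟩, fun y => ?_,
    fun k hk => mu k ▸ hf k hk, fun s hs => ?_⟩
  · rw [Measure.map_apply ml (measurableSet_singleton y)]
    refine ac (measure_mono_null (t := {Real.exp y} ∪ Iic 0) (fun x hx => ?_)
      (measure_union_null (ns _) hz))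
    rcases le_or_gt x 0 with e | e
    · exact Or.inr e
    · exact Or.inl (by rw [← (show Real.log x = y from hx), Real.exp_log e]; rfl)
  · rw [cdf_eq_real, map_measureReal_apply ml measurableSet_Iic, Measure.real,
      ge _ (ml measurableSet_Iic), integral_map ml.aemeasurable (by fun_prop),
      integral_eq_lintegral_of_nonneg_ae (ae_of_all _ fun a => (Real.exp_pos _).le)
        (Measurable.aestronglyMeasurable (by fun_prop))]
    congr 1
    exact lintegral_congr_ae (Eventually.mono (ac.ae_le pos) fun a ha => beta_eq hw ha y)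
  · rw [Measure.map_apply ml hs, bias, Measure.sum_apply _ (ml hs)]
    refine tsum_congr fun k => ?_
    rw [Measure.smul_apply, withDensity_apply _ (ml hs), smul_eq_mul, mu, mo k s hs]

theorem result (w : ℝ) (hw : 0 < w) (ψ : ℕ → ℝ≥0∞) (h0 : ψ 0 = 0) (h1 : ∑' k, ψ k = 1)
    (μ μ' : Measure ℝ) (h : Sol w ψ μ) (h' : Sol w ψ μ') :
    ∃ c : ℝ, 0 < c ∧ μ' = μ.map fun x => c * x := by
  obtain ⟨c, hc⟩ := uniq hw h0 h1 (h.ls hw h1) (h'.ls hw h1)
  have ml := Real.measurable_log
  have me := Real.measurable_exp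
  refine ⟨Real.exp c, Real.exp_pos c, ?_⟩
  have e := congrArg (Measure.map Real.exp) hc
  rw [Measure.map_map me ml, Measure.map_map (by fun_prop) ml, Measure.map_map me (by fun_prop),
    Measure.map_congr (f := Real.exp ∘ Real.log) (g := id)
      (h'.pos.mono fun x hx => Real.exp_log hx), Measure.map_id] at e
  rw [e]
  refine Measure.map_congr (h.pos.mono fun x hx => ?_)
  simp only [Function.comp, Real.exp_add, Real.exp_log hx, mul_comm]

end Pool.Agent.Results.MP_ec0ea5_pr.Unique
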